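import Pool.Agent.helper75.AU.SpecR

/-!
# Project au (MP_97532f_ag): module ML
-/

namespace Pool.Agent.helper75.AU

open scoped Classical
open Pool.Agent.helper53.AU MulAction

/-- Parity: an integral vector `w` with `M w = m w`, `m` even, `w a = 0` is even. -/
theorem ML_even {Om : Type} [Fintype Om] (Z : Om → Om → ℤ) (m : ℤ) (hm : 2 ∣ m)
    (hdiag : ∀ a, Z a a = 0) (hoff : ∀ a b, a ≠ b → Z a b = 1 ∨ Z a b = -1)
    (w : Om → ℤ) (hw : ∀ b, ∑ x, Z b x * w x = m * w b) (a : Om) (ha : w a = 0) (b : Om) :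
    2 ∣ w b := by
  have key : ∀ b : Om, (2 : ℤ) ∣ (∑ x, w x) - w b := by
    intro b
    have h1 : (∑ x, w x) - w b - ∑ x, Z b x * w x = ∑ x, ((1 - Z b x) * w x - if x = b then w x else 0) := by
      rw [Finset.sum_sub_distrib, Finset.sum_ite_eq' Finset.univ b]
      simp only [Finset.mem_univ, if_true]
      have : ∑ x, (1 - Z b x) * w x = ∑ x, w x - ∑ x, Z b x * w x := by
        rw [← Finset.sum_sub_distrib]
        refine Finset.sum_congr rfl fun x _ => by ring
      rw [this]; ring
    have h2 : (2 : ℤ) ∣ ∑ x, ((1 - Z b x) * w x - if x = b then w x else 0) := by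
      refine Finset.dvd_sum fun x _ => ?_
      by_cases hx : x = b
      · subst hx; simp [hdiag]
      · rcases hoff b x (Ne.symm hx) with h | h
        · simp [h, hx]
        · simp only [h, hx, if_false]
          exact ⟨w x, by ring⟩
    rw [← h1, hw b] at h2
    have h3 : (2 : ℤ) ∣ m * w b := hm.mul_right _
    have := dvd_add h2 h3
    simpa using this
  have h1 := key a
  have h2 := key b
  rw [ha, sub_zero] at h1
  have := dvd_sub h1 h2
  simpa using this

theorem ML_zero {Om : Type} [Fintype Om] (Z : Om → Om → ℤ) (m : ℤ) (hm : 2 ∣ m)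
    (hdiag : ∀ a, Z a a = 0) (hoff : ∀ a b, a ≠ b → Z a b = 1 ∨ Z a b = -1) (a : Om) :
    ∀ (k : ℕ) (w : Om → ℤ), (∀ b, ∑ x, Z b x * w x = m * w b) → w a = 0 → ∀ b, (2 : ℤ) ^ k ∣ w b := by
  intro k
  induction k with
  | zero => intro w _ _ b; simp
  | succ k ih =>
    intro w hw ha b
    have h2 : ∀ b, (2 : ℤ) ∣ w b := ML_even Z m hm hdiag hoff w hw a ha
    choose v hv using h2
    have hv1 : ∀ b, ∑ x, Z b x * v x = m * v b := by
      intro b
      have h := hw b
      have h' : ∑ x, Z b x * w x = 2 * ∑ x, Z b x * v x := by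
        rw [Finset.mul_sum]
        refine Finset.sum_congr rfl fun x _ => ?_
        rw [hv x]; ring
      rw [h', hv b] at h
      linarith
    have hv2 : v a = 0 := by
      have := hv a
      rw [ha] at this
      omega
    obtain ⟨t, ht⟩ := ih v hv1 hv2 b
    exact ⟨t, by rw [hv b, ht]; ring⟩

theorem ML_zero' {Om : Type} [Fintype Om] (Z : Om → Om → ℤ) (m : ℤ) (hm : 2 ∣ m)
    (hdiag : ∀ a, Z a a = 0) (hoff : ∀ a b, a ≠ b → Z a b = 1 ∨ Z a b = -1) (a : Om)
    (w : Om → ℤ) (hw : ∀ b, ∑ x, Z b x * w x = m * w b) (ha : w a = 0) (b : Om) : w b = 0 := by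
  by_contra hne
  have h1 := ML_zero Z m hm hdiag hoff a (w b).natAbs w hw ha b
  have h2 : (2 : ℤ) ^ (w b).natAbs ≤ |w b| := Int.le_of_dvd (abs_pos.mpr hne) ((dvd_abs _ _).mpr h1)
  have h3 : (w b).natAbs < 2 ^ (w b).natAbs := Nat.lt_two_pow_self
  have h4 : ((w b).natAbs : ℤ) < 2 ^ (w b).natAbs := by exact_mod_cast h3
  rw [Int.natCast_natAbs] at h4
  omega

theorem ML : ML_stmt := by
  intro Om _ _ M c hodd h3 hdiag hoff
  have hn : (3 : ℚ) ≤ (Fintype.card Om : ℚ) := by exact_mod_cast h3
  have hoddn : Odd (Fintype.card Om) := Nat.odd_iff.mpr hodd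
  refine ⟨?_, ?_⟩
  · intro hT hM
    have h1 : M.det = 0 := by
      have : M.det = -M.det := by
        calc M.det = M.transpose.det := (Matrix.det_transpose M).symm
          _ = (-M).det := by rw [hT]
          _ = (-1)^(Fintype.card Om) * M.det := Matrix.det_neg M
          _ = -M.det := by rw [hoddn.neg_one_pow]; ring
      linarith
    have h2 : M * (M - (c:ℚ) • (1 : Matrix Om Om ℚ)) =
        (-((Fintype.card Om : ℚ) - 1)) • (1 : Matrix Om Om ℚ) := by
      rw [mul_sub, hM]
      simp only [Matrix.mul_smul, Matrix.mul_one]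
      module
    have h3' := congrArg Matrix.det h2
    rw [Matrix.det_mul, h1, zero_mul, Matrix.det_smul, Matrix.det_one, mul_one] at h3'
    have : (-((Fintype.card Om:ℚ) - 1)) ^ Fintype.card Om ≠ 0 :=
      pow_ne_zero _ (by intro h; linarith)
    exact this h3'.symm
  · intro hT hM
    obtain ⟨k, hk⟩ := hoddn
    -- the discriminant is a square
    have hsq : ((2:ℚ) • M - (c:ℚ) • (1 : Matrix Om Om ℚ)) * ((2:ℚ) • M - (c:ℚ) • (1 : Matrix Om Om ℚ)) =
        ((c:ℚ)^2 + 4 * ((Fintype.card Om : ℚ) - 1)) • (1 : Matrix Om Om ℚ) := by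
      rw [sub_mul, mul_sub, mul_sub]
      simp only [Matrix.mul_smul, Matrix.smul_mul, Matrix.mul_one, Matrix.one_mul, hM]
      module
    have hD := congrArg Matrix.det hsq
    rw [Matrix.det_mul, Matrix.det_smul, Matrix.det_one, mul_one] at hD
    set D : ℚ := (c:ℚ)^2 + 4 * ((Fintype.card Om : ℚ) - 1) with hDdef
    have hDpos : 0 < D := by nlinarith [sq_nonneg (c:ℚ)]
    set e : ℚ := ((2:ℚ) • M - (c:ℚ) • (1 : Matrix Om Om ℚ)).det with he
    have hsqD : IsSquare D := by
      refine ⟨e / D ^ k, ?_⟩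
      have hk' : D ^ k ≠ 0 := pow_ne_zero _ hDpos.ne'
      field_simp
      have : e * e = D ^ (2 * k + 1) := by rw [hD, hk]
      have h5 : e ^ 2 = D ^ (2 * k + 1) := by rw [← this]; ring
      rw [h5]; ring
    have hDint : D = (((c^2 + 4 * ((Fintype.card Om : ℤ) - 1) : ℤ)) : ℚ) := by
      rw [hDdef]; push_cast; ring
    rw [hDint, Rat.isSquare_intCast_iff] at hsqD
    obtain ⟨δ, hδ⟩ := hsqD
    -- δ and c have the same parity
    have hpar : (2 : ℤ) ∣ c + δ := by
      have h6 : δ * δ = c ^ 2 + 4 * ((Fintype.card Om : ℤ) - 1) := hδ.symm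
      have h7 : (c + δ) * (δ - c) = 4 * ((Fintype.card Om : ℤ) - 1) := by ring_nf; linarith
      rcases Int.even_or_odd (c + δ) with h | h
      · exact h.two_dvd
      · exfalso
        have h8 : Odd (δ - c) := by
          have : δ - c = (c + δ) - 2 * c := by ring
          rw [this]; exact h.sub_even (even_two_mul c)
        have h9 : Odd ((c + δ) * (δ - c)) := h.mul h8
        rw [h7] at h9
        exact (Int.not_even_iff_odd.mpr h9) ⟨2 * ((Fintype.card Om : ℤ) - 1), by ring⟩
    obtain ⟨r, hr⟩ := hpar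
    -- the roots are r and c - r
    have hroot : r * (c - r) = -((Fintype.card Om : ℤ) - 1) := by
      have h6 : δ = 2 * r - c := by linarith
      rw [h6] at hδ
      nlinarith
    -- an even root
    obtain ⟨m, hm2, hm⟩ : ∃ m : ℤ, 2 ∣ m ∧ m * (c - m) = -((Fintype.card Om : ℤ) - 1) := by
      rcases Int.even_or_odd r with h | h
      · exact ⟨r, h.two_dvd, hroot⟩
      · rcases Int.even_or_odd (c - r) with h' | h'
        · exact ⟨c - r, h'.two_dvd, by rw [← hroot]; ring⟩
        · exfalso
          have h9 : Odd (r * (c - r)) := h.mul h'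
          rw [hroot] at h9
          refine (Int.not_even_iff_odd.mpr h9) ⟨-k, ?_⟩
          rw [hk]; push_cast; ring
    have hmQ : (m:ℚ) * ((c:ℚ) - m) = -((Fintype.card Om : ℚ) - 1) := by exact_mod_cast hm
    -- integral model
    obtain ⟨Z, hZ⟩ : ∃ Z : Om → Om → ℤ, ∀ a b, M a b = (Z a b : ℚ) := by
      refine ⟨fun a b => if M a b = 0 then 0 else if M a b = 1 then 1 else -1, fun a b => ?_⟩
      by_cases hab : a = b
      · subst hab; simp [hdiag]
      · rcases hoff a b hab with h | h
        · simp [h]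
        · simp [h]
    have hZdiag : ∀ a, Z a a = 0 := fun a => by
      have := hZ a a; rw [hdiag] at this; exact_mod_cast this.symm
    have hZoff : ∀ a b, a ≠ b → Z a b = 1 ∨ Z a b = -1 := fun a b hab => by
      have h1 := hZ a b
      rcases hoff a b hab with h | h
      · left; rw [h] at h1; exact_mod_cast h1.symm
      · right; rw [h] at h1; exact_mod_cast h1.symm
    -- a vector of the eigenspace with a zero coordinate vanishes
    have hzero : ∀ (w : Om → ℚ), M.mulVec w = (m:ℚ) • w → ∀ a, w a = 0 → w = 0 := by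
      intro w hw a ha
      obtain ⟨N, hN0, u, hu⟩ : ∃ N : ℤ, N ≠ 0 ∧ ∃ u : Om → ℤ, ∀ x, (N:ℚ) * w x = (u x : ℚ) := by
        refine ⟨∏ x, ((w x).den : ℤ), Finset.prod_ne_zero_iff.mpr fun x _ => by
          exact_mod_cast (w x).den_nz, fun x => (w x).num * ∏ y ∈ Finset.univ.erase x, ((w y).den : ℤ), ?_⟩
        intro x
        rw [← Finset.mul_prod_erase Finset.univ _ (Finset.mem_univ x)]
        push_cast
        have h1 : ((w x).den : ℚ) * w x = (w x).num := Rat.den_mul_eq_num (w x)
        calc ((w x).den : ℚ) * (∏ y ∈ Finset.univ.erase x, ((w y).den : ℚ)) * w x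
            = (((w x).den : ℚ) * w x) * ∏ y ∈ Finset.univ.erase x, ((w y).den : ℚ) := by ring
          _ = _ := by rw [h1]
      have hu1 : ∀ b, ∑ x, Z b x * u x = m * u b := by
        intro b
        have h1 := congrFun hw b
        simp only [Matrix.mulVec, dotProduct, Pi.smul_apply, smul_eq_mul] at h1
        have h2 : ∑ x, (Z b x : ℚ) * (u x : ℚ) = (m:ℚ) * (u b : ℚ) := by
          calc ∑ x, (Z b x : ℚ) * (u x : ℚ) = ∑ x, (N:ℚ) * (M b x * w x) := by
                refine Finset.sum_congr rfl fun x _ => ?_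
                rw [← hu x, hZ b x]; ring
            _ = (N:ℚ) * ∑ x, M b x * w x := by rw [Finset.mul_sum]
            _ = (N:ℚ) * ((m:ℚ) * w b) := by rw [h1]
            _ = (m:ℚ) * (u b : ℚ) := by rw [← hu b]; ring
        exact_mod_cast h2
      have hu2 : u a = 0 := by
        have h1 := hu a
        rw [ha, mul_zero] at h1
        exact_mod_cast h1.symm
      have hu3 := ML_zero' Z m hm2 hZdiag hZoff a u hu1 hu2
      funext b
      have h1 := hu b
      rw [hu3 b] at h1
      have hNQ : (N:ℚ) ≠ 0 := by exact_mod_cast hN0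
      simpa [hNQ] using h1
    -- two different points
    have hcard : 1 < Fintype.card Om := by omega
    obtain ⟨a, b, hab⟩ := Fintype.exists_pair_of_one_lt_card hcard
    -- the eigenvector: a column of M - (c - m)
    let v : Om → ℚ := fun x => (M - ((c:ℚ) - m) • (1 : Matrix Om Om ℚ)) x b
    have hprod : (M - (m:ℚ) • (1 : Matrix Om Om ℚ)) * (M - ((c:ℚ) - m) • (1 : Matrix Om Om ℚ)) = 0 := by
      rw [sub_mul, mul_sub, mul_sub]
      simp only [Matrix.mul_smul, Matrix.smul_mul, Matrix.mul_one, Matrix.one_mul, hM]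
      have : ((Fintype.card Om : ℚ) - 1) = -((m:ℚ) * ((c:ℚ) - m)) := by rw [hmQ]; ring
      rw [this]
      module
    have hv1 : M.mulVec v = (m:ℚ) • v := by
      have h1 : (M - (m:ℚ) • (1 : Matrix Om Om ℚ)).mulVec v = 0 := by
        funext x
        have := congrFun (congrFun hprod x) b
        rw [Matrix.mul_apply] at this
        exact this
      rw [Matrix.sub_mulVec, Matrix.smul_mulVec, Matrix.one_mulVec] at h1
      exact sub_eq_zero.mp h1
    have hv0 : v ≠ 0 := by
      intro h
      have h1 := congrFun h a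
      simp only [v, Matrix.sub_apply, Matrix.smul_apply, Matrix.one_apply_ne hab, smul_eq_mul, mul_zero,
        sub_zero, Pi.zero_apply] at h1
      rcases hoff a b hab with h2 | h2
      · rw [h1] at h2; norm_num at h2
      · rw [h1] at h2; norm_num at h2
    refine ⟨m, v, hv0, hv1, ?_⟩
    intro w hw
    have hva : v a ≠ 0 := fun h => hv0 (hzero v hv1 a h)
    refine ⟨w a / v a, ?_⟩
    have h1 : w - (w a / v a) • v = 0 := by
      refine hzero _ ?_ a ?_
      · rw [Matrix.mulVec_sub, Matrix.mulVec_smul, hw, hv1]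
        module
      · simp only [Pi.sub_apply, Pi.smul_apply, smul_eq_mul]
        field_simp
        ring
    exact sub_eq_zero.mp h1

end Pool.Agent.helper75.AU
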