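import Pool.Agent.helper75.AU.SpecR

/-!
# Project au (MP_97532f_ag): module T5
-/

namespace Pool.Agent.helper75.AU

open scoped Classical
open Pool.Agent.helper53.AU MulAction

theorem T5_nd {l : ℕ} (hl : l.Prime) (hl1 : 1000 < l) (p : ℕ) (hp : p.Prime) (hp1 : p < 1000) : ¬ p ∣ l := by
  intro h
  have := (Nat.prime_dvd_prime_iff_eq hp hl).mp h
  omega

/-- the numerical classification, sorted -/
theorem T5_sorted (l N e1 e2 e3 o1 o2 o3 : ℕ) (hl : l.Prime) (hl1 : 1000 < l) (h3 : l % 3 = 1)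
    (h8 : l % 8 = 3) (hN3 : ¬ 3 ∣ N) (hN : 8 * (l + 1) < N) (h1 : o1 * e1 = N) (h2 : o2 * e2 = N)
    (h3' : o3 * e3 = N) (c1 : 2 ≤ e1) (h12 : e1 ≤ e2) (h23 : e2 ≤ e3) (rh : 2 * l + o1 + o2 + o3 = N) :
    (N = 10 * l ∨ N = 16 * l ∨ N = 20 * l ∨ N = 40 * l) ∨
      (N = 8 * (l + 4) ∧ e1 ∣ 4 ∧ e2 ∣ 4 ∧ e3 = l + 4) := by
  have p7 := T5_nd hl hl1 7 (by norm_num) (by norm_num)
  have p11 := T5_nd hl hl1 11 (by norm_num) (by norm_num)
  have p13 := T5_nd hl hl1 13 (by norm_num) (by norm_num)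
  have p19 := T5_nd hl hl1 19 (by norm_num) (by norm_num)
  have p23 := T5_nd hl hl1 23 (by norm_num) (by norm_num)
  have p29 := T5_nd hl hl1 29 (by norm_num) (by norm_num)
  have p41 := T5_nd hl hl1 41 (by norm_num) (by norm_num)
  have p47 := T5_nd hl hl1 47 (by norm_num) (by norm_num)
  have n1 : ¬ 3 ∣ e1 := fun h => hN3 (h1 ▸ h.mul_left _)
  have n2 : ¬ 3 ∣ e2 := fun h => hN3 (h2 ▸ h.mul_left _)
  have n3 : ¬ 3 ∣ e3 := fun h => hN3 (h3' ▸ h.mul_left _)
  -- the orbit lengths decrease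
  have o21 : o2 ≤ o1 := by
    by_contra h
    push Not at h
    have : o1 * e1 < o2 * e2 := by
      calc o1 * e1 < o2 * e1 := Nat.mul_lt_mul_of_pos_right h (by omega)
        _ ≤ o2 * e2 := Nat.mul_le_mul_left _ h12
    omega
  have o32 : o3 ≤ o2 := by
    by_contra h
    push Not at h
    have : o2 * e2 < o3 * e3 := by
      calc o2 * e2 < o3 * e2 := Nat.mul_lt_mul_of_pos_right h (by omega)
        _ ≤ o3 * e3 := Nat.mul_le_mul_left _ h23
    omega
  have hpos3 : 0 < o3 := by
    rcases Nat.eq_zero_or_pos o3 with h | h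
    · rw [h, zero_mul] at h3'; omega
    · exact h
  have he1 : e1 = 2 := by
    have : e1 < 4 := by
      by_contra h
      push Not at h
      have : o1 * 4 ≤ o1 * e1 := Nat.mul_le_mul_left _ h
      omega
    interval_cases e1
    · rfl
    · exact absurd (dvd_refl 3) n1
  subst he1
  have he2 : e2 < 8 := by
    by_contra h
    push Not at h
    have : o2 * 8 ≤ o2 * e2 := Nat.mul_le_mul_left _ h
    omega
  interval_cases e2
  · exfalso; omega
  · exact absurd (dvd_refl 3) n2
  · -- (2,4,e)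
    have h4 : 4 < e3 := by
      by_contra h
      have : e3 = 4 := by omega
      subst this
      omega
    obtain ⟨m, hm⟩ : ∃ m, e3 = m + 4 := ⟨e3 - 4, by omega⟩
    subst hm
    have hm8 : o3 * m = 8 * l := by
      have : o3 * (m + 4) = o3 * m + o3 * 4 := by ring
      omega
    have hld : l ∣ o3 * m := ⟨8, by rw [hm8]; ring⟩
    rcases (hl.dvd_mul).mp hld with ⟨o', ho⟩ | ⟨m', hm'⟩
    · left
      have h8' : o' * m = 8 := by
        have : l * (o' * m) = l * 8 := by rw [← mul_assoc, ← ho, hm8]; ring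
        exact Nat.eq_of_mul_eq_mul_left (by omega) this
      have hm_dvd : m ∣ 8 := ⟨o', by rw [mul_comm]; exact h8'.symm⟩
      have hmle : m ≤ 8 := Nat.le_of_dvd (by norm_num) hm_dvd
      subst ho
      have hm0 : 0 < m := by omega
      have e : l * o' * (m + 4) = l * (o' * m) + 4 * (l * o') := by ring
      rw [h8'] at e
      interval_cases m
      · have : o' = 8 := by omega
        subst this; right; right; right; omega
      · exact absurd ⟨2, rfl⟩ n3
      · omega
      · have : o' = 2 := by omega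
        subst this; right; left; omega
      · omega
      · omega
      · omega
      · exact absurd ⟨4, rfl⟩ n3
    · have h8' : o3 * m' = 8 := by
        have : l * (o3 * m') = l * 8 := by
          calc l * (o3 * m') = o3 * (l * m') := by ring
            _ = o3 * m := by rw [hm']
            _ = l * 8 := by rw [hm8]; ring
        exact Nat.eq_of_mul_eq_mul_left (by omega) this
      have ho_dvd : o3 ∣ 8 := ⟨m', h8'.symm⟩
      have hole : o3 ≤ 8 := Nat.le_of_dvd (by norm_num) ho_dvd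
      subst hm'
      interval_cases o3
      · -- o3 = 1, m' = 8
        have : m' = 8 := by omega
        subst this; omega
      · have : m' = 4 := by omega
        subst this; omega
      · omega
      · -- o3 = 4, m' = 2: e3 = 2l+4 divisible by 3
        have : m' = 2 := by omega
        subst this
        exfalso; apply n3; omega
      · omega
      · omega
      · omega
      · right
        have : m' = 1 := by omega
        subst this
        refine ⟨by omega, by norm_num, by norm_num, by omega⟩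
  · -- (2,5,e)
    left
    obtain ⟨t, ht⟩ : ∃ t, o2 = 2 * t := ⟨o2 / 2, by omega⟩
    subst ht
    have h20 : e3 < 20 := by
      by_contra h
      push Not at h
      have : o3 * 20 ≤ o3 * e3 := Nat.mul_le_mul_left _ h
      omega
    interval_cases e3 <;> omega
  · exact absurd ⟨2, rfl⟩ n2
  · -- (2,7,e)
    obtain ⟨t, ht⟩ : ∃ t, o2 = 2 * t := ⟨o2 / 2, by omega⟩
    subst ht
    have h20 : e3 < 10 := by
      by_contra h
      push Not at h
      have : o3 * 10 ≤ o3 * e3 := Nat.mul_le_mul_left _ h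
      omega
    interval_cases e3 <;> omega

theorem T5_orb {G X : Type} [Group G] [Fintype G] [MulAction G X] (x : X) :
    oo G x * Nat.card (stabilizer G x) = Nat.card G := by
  rw [oo, ← Nat.card_prod]
  exact Nat.card_congr (MulAction.orbitProdStabilizerEquivGroup G x)

theorem T5_cs {G X : Type} [Group G] [Fintype G] [MulAction G X] (x y : X) (h : x ∈ orbit G y) :
    Nat.card (stabilizer G x) = Nat.card (stabilizer G y) := by
  obtain ⟨a, rfl⟩ := h
  exact Nat.card_congr (MulAction.stabilizerEquivStabilizer (g := a) rfl).symm.toEquiv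

theorem T5 : T5_stmt := by
  intro k G X _ _ _ _ _ _ l R y₁ y₂ y₃ hS hN hT
  have a1 := T5_orb (G := G) y₁
  have a2 := T5_orb (G := G) y₂
  have a3 := T5_orb (G := G) y₃
  have rh : 2 * l + oo G y₁ + oo G y₂ + oo G y₃ = Nat.card G := by
    have := hT.rh; omega
  have c1 := hT.c₁
  have c2 := hT.c₂
  have c3 := hT.c₃
  have key := T5_sorted l (Nat.card G)
  -- the final step
  have fin : ∀ (y y' y'' : X), (∀ z : X, stabilizer G z ≠ ⊥ → z ∈ orbit G y ∨ z ∈ orbit G y' ∨ z ∈ orbit G y'') →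
      Nat.card G = 8 * (l + 4) ∧ Nat.card (stabilizer G y') ∣ 4 ∧ Nat.card (stabilizer G y'') ∣ 4 ∧
        Nat.card (stabilizer G y) = l + 4 →
      (Nat.card G = 8 * (l + 4) ∧ ∃ y : X, Nat.card (stabilizer G y) = l + 4 ∧
        ∀ z : X, z ∉ orbit G y → Nat.card (stabilizer G z) ∣ 4) := by
    intro y y' y'' hcov ⟨hA, hB, hC, hD⟩
    refine ⟨hA, y, hD, fun z hz => ?_⟩
    by_cases hbot : stabilizer G z = ⊥
    · rw [hbot]; simp
    · rcases hcov z hbot with h | h | h
      · exact absurd h hz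
      · rw [T5_cs z y' h]; exact hB
      · rw [T5_cs z y'' h]; exact hC
  have cov := hT.cov
  rcases le_total (Nat.card (stabilizer G y₁)) (Nat.card (stabilizer G y₂)) with h12 | h12 <;>
  rcases le_total (Nat.card (stabilizer G y₂)) (Nat.card (stabilizer G y₃)) with h23 | h23 <;>
  rcases le_total (Nat.card (stabilizer G y₁)) (Nat.card (stabilizer G y₃)) with h13 | h13
  · -- 1 ≤ 2 ≤ 3
    rcases key _ _ _ _ _ _ hS.prime hS.large hS.mod3 hS.mod8 hT.nd hN a1 a2 a3 c1 h12 h23 (by omega) with h | h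
    · exact Or.inl h
    · exact Or.inr (fin y₃ y₁ y₂ (fun z hz => by rcases cov z hz with h | h | h <;> tauto)
        ⟨h.1, h.2.1, h.2.2.1, h.2.2.2⟩)
  · rcases key _ _ _ _ _ _ hS.prime hS.large hS.mod3 hS.mod8 hT.nd hN a1 a2 a3 c1 h12 h23 (by omega) with h | h
    · exact Or.inl h
    · exact Or.inr (fin y₃ y₁ y₂ (fun z hz => by rcases cov z hz with h | h | h <;> tauto)
        ⟨h.1, h.2.1, h.2.2.1, h.2.2.2⟩)
  · -- 1 ≤ 3 ≤ 2
    rcases key _ _ _ _ _ _ hS.prime hS.large hS.mod3 hS.mod8 hT.nd hN a1 a3 a2 c1 h13 h23 (by omega) with h | h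
    · exact Or.inl h
    · exact Or.inr (fin y₂ y₁ y₃ (fun z hz => by rcases cov z hz with h | h | h <;> tauto)
        ⟨h.1, h.2.1, h.2.2.1, h.2.2.2⟩)
  · -- 3 ≤ 1 ≤ 2
    rcases key _ _ _ _ _ _ hS.prime hS.large hS.mod3 hS.mod8 hT.nd hN a3 a1 a2 c3 h13 h12 (by omega) with h | h
    · exact Or.inl h
    · exact Or.inr (fin y₂ y₃ y₁ (fun z hz => by rcases cov z hz with h | h | h <;> tauto)
        ⟨h.1, h.2.1, h.2.2.1, h.2.2.2⟩)
  · -- 2 ≤ 1 ≤ 3
    rcases key _ _ _ _ _ _ hS.prime hS.large hS.mod3 hS.mod8 hT.nd hN a2 a1 a3 c2 h12 h13 (by omega) with h | h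
    · exact Or.inl h
    · exact Or.inr (fin y₃ y₂ y₁ (fun z hz => by rcases cov z hz with h | h | h <;> tauto)
        ⟨h.1, h.2.1, h.2.2.1, h.2.2.2⟩)
  · -- 2 ≤ 3 ≤ 1
    rcases key _ _ _ _ _ _ hS.prime hS.large hS.mod3 hS.mod8 hT.nd hN a2 a3 a1 c2 h23 h13 (by omega) with h | h
    · exact Or.inl h
    · exact Or.inr (fin y₁ y₂ y₃ (fun z hz => by rcases cov z hz with h | h | h <;> tauto)
        ⟨h.1, h.2.1, h.2.2.1, h.2.2.2⟩)
  · -- 3 ≤ 2 ≤ 1
    rcases key _ _ _ _ _ _ hS.prime hS.large hS.mod3 hS.mod8 hT.nd hN a3 a2 a1 c3 h23 h12 (by omega) with h | h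
    · exact Or.inl h
    · exact Or.inr (fin y₁ y₃ y₂ (fun z hz => by rcases cov z hz with h | h | h <;> tauto)
        ⟨h.1, h.2.1, h.2.2.1, h.2.2.2⟩)
  · rcases key _ _ _ _ _ _ hS.prime hS.large hS.mod3 hS.mod8 hT.nd hN a3 a2 a1 c3 h23 h12 (by omega) with h | h
    · exact Or.inl h
    · exact Or.inr (fin y₁ y₃ y₂ (fun z hz => by rcases cov z hz with h | h | h <;> tauto)
        ⟨h.1, h.2.1, h.2.2.1, h.2.2.2⟩)

end Pool.Agent.helper75.AU
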